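import Pool.Agent.N916.PP.FamB

/-!
# Project PP, part FAM: the theorem
-/

set_option autoImplicit false
set_option linter.all false

open Polynomial
open scoped Classical

namespace Pool.Agent.N916.PP

open Pool.Agent.N874.PP

section basics

variable {k : Type} [Field k] [Finite k]

theorem exists_Pr (h6 : (6 : k) ≠ 0) : ∃ P : ℕ → Finset k[X],
    (∀ d Q, Q ∈ P d ↔ Q.Monic ∧ Irreducible Q ∧ Q.natDegree = d) ∧
    ∀ d : ℕ, 1 ≤ d → (d : ℝ) * (P d).card ≤ (Nat.card k : ℝ) ^ d := by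
  haveI := Fintype.ofFinite k
  have hk : ringChar k ≠ 2 := by
    intro h
    apply h6
    have : ((6 : ℕ) : k) = 0 := (ringChar.spec k 6).2 (by rw [h]; norm_num)
    exact_mod_cast this
  refine ⟨fun d => Pool.Agent.Y164.PS.Pr k d, fun d Q => Pool.Agent.Y164.PS.mem_Pr, fun d hd => ?_⟩
  have := Pool.Agent.Y164.PS.card_Pr_le (k := k) hk d hd
  rwa [← Nat.card_eq_fintype_card] at this

theorem five_le (h6 : (6 : k) ≠ 0) : 5 ≤ Nat.card k := by
  haveI := Fintype.ofFinite k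
  have h0 : ((Nat.card k : ℕ) : k) = 0 := by
    rw [Nat.card_eq_fintype_card]
    exact FiniteField.cast_card_eq_zero k
  have hpos := Nat.card_pos (α := k)
  by_contra h
  push_neg at h
  have h1 : Nat.card k = 1 ∨ Nat.card k = 2 ∨ Nat.card k = 3 ∨ Nat.card k = 4 := by omega
  rcases h1 with h1 | h1 | h1 | h1 <;> rw [h1] at h0
  · simp at h0
  · apply h6
    have : (2 : k) = 0 := by exact_mod_cast h0
    linear_combination 3 * this
  · apply h6
    have : (3 : k) = 0 := by exact_mod_cast h0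
    linear_combination 2 * this
  · apply h6
    have h4 : (4 : k) = 0 := by exact_mod_cast h0
    have h2 : (2 : k) * 2 = 0 := by linear_combination h4
    have : (2 : k) = 0 := by
      rcases mul_eq_zero.1 h2 with h | h <;> exact h
    linear_combination 3 * this

theorem bU {ι α : Type} (s : Finset ι) (f : ι → Set α) (C : ι → ℝ)
    (h : ∀ i ∈ s, ((f i).ncard : ℝ) ≤ C i) : (((⋃ i ∈ s, f i)).ncard : ℝ) ≤ ∑ i ∈ s, C i := by
  have h1 : ((⋃ i ∈ s, f i).ncard : ℝ) ≤ ((∑ i ∈ s, (f i).ncard : ℕ) : ℝ) := by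
    exact_mod_cast Finset.set_ncard_biUnion_le s f
  refine h1.trans ?_
  push_cast
  exact Finset.sum_le_sum h

theorem exists_a1 (S : Finset k[X]) (hS : ∀ Q ∈ S, Q.Monic ∧ Irreducible Q) (s : k[X] → k[X]) :
    (∀ Q : k[X], Q.Monic → Irreducible Q → Q ∉ S → IsCoprime (∏ R ∈ S, R) Q) ∧
    ∃ a1 : k[X], ∀ Q ∈ S, Q ∣ a1 - s Q := by
  have hcop : ∀ T : Finset k[X], (∀ Q ∈ T, Q.Monic ∧ Irreducible Q) → ∀ Q : k[X], Q.Monic →
      Irreducible Q → Q ∉ T → IsCoprime (∏ R ∈ T, R) Q := by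
    intro T hT Q hQm hQ hQT
    refine IsCoprime.prod_left fun R hR => ?_
    rw [(hT R hR).2.coprime_iff_not_dvd]
    intro hd
    apply hQT
    have h1 : R = Q := eq_of_monic_of_associated (hT R hR).1 hQm
      ((hT R hR).2.associated_of_dvd hQ hd)
    rwa [← h1]
  refine ⟨hcop S hS, ?_⟩
  induction S using Finset.induction_on with
  | empty => exact ⟨0, by simp⟩
  | insert Q T hQT ih =>
    obtain ⟨a', ha'⟩ := ih (fun R hR => hS R (Finset.mem_insert_of_mem hR))
    have hc := hcop T (fun R hR => hS R (Finset.mem_insert_of_mem hR)) Q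
      (hS Q (Finset.mem_insert_self _ _)).1 (hS Q (Finset.mem_insert_self _ _)).2 hQT
    obtain ⟨u, hu1, hu2⟩ := crt2 hc a' (s Q)
    refine ⟨u, fun R hR => ?_⟩
    rcases Finset.mem_insert.1 hR with rfl | hR
    · exact hu2
    · have h1 : R ∣ u - a' := (Finset.dvd_prod_of_mem (fun x => x) hR).trans hu1
      have := dvd_add h1 (ha' R hR)
      convert this using 1
      ring

theorem C_dvd {Q : k[X]} (c : k) (x : k[X]) (hc : c ≠ 0) (h : Q ∣ C c * x) : Q ∣ x :=
  (isUnit_C.2 (isUnit_iff_ne_zero.2 hc)).dvd_mul_left.1 h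

/-- the primes in `S` do not divide the discriminant -/
theorem not_mem_S (h6 : (6 : k) ≠ 0) {Q a b s : k[X]} (hQ : Irreducible Q)
    (hg : ∀ z : k[X], ¬ Q ∣ z ^ 2 + s) (ha : Q ∣ a - s) (hb : Q ∣ b) : ¬ Q ∣ dsc a b := by
  intro h
  have h2 : (2 : k) ≠ 0 := fun h => h6 (by linear_combination 3 * h)
  apply hg 0
  have h1 : Q ∣ 4 * a ^ 3 := by
    have h3 : Q ∣ 27 * b ^ 2 := Dvd.dvd.mul_left (dvd_pow hb two_ne_zero) _
    unfold dsc at h
    have := dvd_sub h h3
    convert this using 1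
    ring
  have h4 : Q ∣ a ^ 3 := C_dvd 4 _ (by
    have : (4 : k) = 2 ^ 2 := by norm_num
    rw [this]; exact pow_ne_zero 2 h2) (by simpa only [map_ofNat] using h1)
  have h5 : Q ∣ a := hQ.prime.dvd_of_dvd_pow h4
  have := dvd_sub h5 ha
  convert this using 1
  ring

theorem deg_dsc (N : ℕ) (a b : k[X]) (ha : a.natDegree ≤ 4 * N) (hb : b.natDegree ≤ 6 * N) :
    (dsc a b).natDegree ≤ 12 * N := by
  unfold dsc
  refine (natDegree_add_le _ _).trans (max_le ?_ ?_)
  · have h1 : ((4 : k[X]) * a ^ 3).natDegree ≤ (4 : k[X]).natDegree + (a ^ 3).natDegree :=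
      natDegree_mul_le
    have h2 : (a ^ 3).natDegree ≤ 3 * a.natDegree := natDegree_pow_le
    have h3 : (4 : k[X]).natDegree = 0 := natDegree_ofNat 4
    omega
  · have h1 : ((27 : k[X]) * b ^ 2).natDegree ≤ (27 : k[X]).natDegree + (b ^ 2).natDegree :=
      natDegree_mul_le
    have h2 : (b ^ 2).natDegree ≤ 2 * b.natDegree := natDegree_pow_le
    have h3 : (27 : k[X]).natDegree = 0 := natDegree_ofNat 27
    omega

theorem bad_prime (N : ℕ) (hN : 1 ≤ N) (a b : k[X]) (ha : a.natDegree ≤ 4 * N)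
    (hb : b.natDegree ≤ 6 * N) (h : ¬ Squarefree (dsc a b)) :
    ∃ Q : k[X], Q.Monic ∧ Irreducible Q ∧ Q ^ 2 ∣ dsc a b ∧ 1 ≤ Q.natDegree ∧
      Q.natDegree ≤ 6 * N := by
  by_cases h0 : dsc a b = 0
  · refine ⟨X, monic_X, irreducible_X, by rw [h0]; exact dvd_zero _, by simp, ?_⟩
    rw [natDegree_X]
    omega
  · unfold Squarefree at h
    push_neg at h
    obtain ⟨x, hx, hu⟩ := h
    obtain ⟨g, hgm, hgi, hgx⟩ := exists_monic_irreducible_factor x hu
    have hd : g ^ 2 ∣ dsc a b := by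
      refine dvd_trans ?_ hx
      rw [sq]
      exact mul_dvd_mul hgx hgx
    refine ⟨g, hgm, hgi, hd, hgi.natDegree_pos, ?_⟩
    have h1 := natDegree_le_of_dvd hd h0
    have h2 := deg_dsc N a b ha hb
    rw [hgm.natDegree_pow] at h1
    omega

theorem dvd_b (h6 : (6 : k) ≠ 0) {Q a b : k[X]} (hQ : Irreducible Q) (ha : Q ∣ a)
    (h : Q ^ 2 ∣ dsc a b) : Q ∣ b := by
  have h3 : (3 : k) ≠ 0 := fun h => h6 (by linear_combination 2 * h)
  have h1 : Q ∣ dsc a b := (dvd_pow_self Q two_ne_zero).trans h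
  have h4 : Q ∣ 27 * b ^ 2 := by
    have h5 : Q ∣ 4 * a ^ 3 := Dvd.dvd.mul_left (dvd_pow ha (by norm_num)) _
    unfold dsc at h1
    have := dvd_sub h1 h5
    convert this using 1
    ring
  have h6' : Q ∣ b ^ 2 := C_dvd 27 _ (by
    have : (27 : k) = 3 ^ 3 := by norm_num
    rw [this]; exact pow_ne_zero 3 h3) (by simpa only [map_ofNat] using h4)
  exact hQ.prime.dvd_of_dvd_pow h6'

/-! ### sums -/

theorem sum1 (q : ℝ) (hq : 5 ≤ q) (D n : ℕ) :
    ∑ d ∈ Finset.Ico (D + 1) (D + n + 1), 1 / q ^ d =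
      (1 / (q - 1)) / q ^ D - (1 / (q - 1)) / q ^ (D + n) := by
  have hq0 : 0 < q := by linarith
  have hq1 : q - 1 ≠ 0 := by linarith
  induction n with
  | zero => simp
  | succ n ih =>
    rw [show D + (n + 1) + 1 = (D + n + 1) + 1 by ring, Finset.sum_Ico_succ_top (by omega), ih,
      show D + (n + 1) = D + n + 1 by ring, pow_succ q (D + n)]
    have h2 : q ^ (D + n) ≠ 0 := by positivity
    have h3 : q ^ D ≠ 0 := by positivity
    field_simp
    ring

theorem sum2 (q : ℝ) (hq : 5 ≤ q) (L : ℕ) : ∑ d ∈ Finset.range (L + 1), q ^ d ≤ 5 / 4 * q ^ L := by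
  induction L with
  | zero => simp; norm_num
  | succ L ih =>
    rw [Finset.sum_range_succ]
    have : 0 < q ^ L := by positivity
    have h2 : q ^ (L + 1) = q ^ L * q := pow_succ _ _
    nlinarith

end basics

end Pool.Agent.N916.PP
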