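import Pool.Agent.N874.PP.Def
import Pool.Agent.Y164.PS.Chr

/-!
# Project PP, part FAM: counting polynomials in residue classes
-/

set_option autoImplicit false
set_option linter.all false

open Polynomial
open scoped Classical

namespace Pool.Agent.N916.PP

open Pool.Agent.N874.PP

variable {k : Type} [Field k] [Finite k]

/-- polynomials of degree less than `n` in the class of `r` modulo `M` -/
def lt0 (n : ℕ) (M r : k[X]) : Set k[X] := {f | f.degree < n ∧ M ∣ f - r}

/-- polynomials of degree at most `n` with prescribed coefficient at `n` in the class of `r` -/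
def cls (n : ℕ) (c : k) (M r : k[X]) : Set k[X] := {f | f.natDegree ≤ n ∧ f.coeff n = c ∧ M ∣ f - r}

theorem lt_ncard (n : ℕ) : {f : k[X] | f.degree < n}.ncard = Nat.card k ^ n ∧
    {f : k[X] | f.degree < n}.Finite := by
  have e : {f : k[X] | f.degree < n} = (degreeLT k n : Set k[X]) := by
    ext f
    simp [mem_degreeLT]
  have hfin : Finite (degreeLT k n) := Finite.of_equiv _ (degreeLTEquiv k n).symm.toEquiv
  rw [e]
  refine ⟨?_, hfin⟩
  rw [← Nat.card_coe_set_eq]
  show Nat.card (degreeLT k n) = _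
  rw [Nat.card_congr (degreeLTEquiv k n).toEquiv, Nat.card_pi]
  simp

theorem lt0_finite (n : ℕ) (M r : k[X]) : (lt0 n M r).Finite :=
  (lt_ncard (k := k) n).2.subset fun f hf => hf.1

theorem lt0_ncard (n : ℕ) (M r : k[X]) (hM : M.Monic) (h : M.natDegree ≤ n) :
    (lt0 n M r).ncard = Nat.card k ^ (n - M.natDegree) := by
  rw [← (lt_ncard (k := k) (n - M.natDegree)).1]
  symm
  refine Set.ncard_congr (fun g _ => r %ₘ M + M * g) ?_ ?_ ?_
  · intro g hg
    simp only [Set.mem_ofPred_eq] at hg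
    constructor
    · refine lt_of_le_of_lt (degree_add_le _ _) (max_lt ?_ ?_)
      · refine lt_of_lt_of_le (degree_modByMonic_lt r hM) ?_
        rw [degree_eq_natDegree hM.ne_zero]
        exact_mod_cast h
      · rw [degree_mul, degree_eq_natDegree hM.ne_zero]
        by_cases hg0 : g = 0
        · subst hg0
          simp
        · rw [degree_eq_natDegree hg0] at hg ⊢
          have hg' : g.natDegree < n - M.natDegree := by exact_mod_cast hg
          have : M.natDegree + g.natDegree < n := by omega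
          exact_mod_cast this
    · have h1 := modByMonic_add_div r M
      refine ⟨g - r /ₘ M, ?_⟩
      have : r = r %ₘ M + M * (r /ₘ M) := h1.symm
      calc r %ₘ M + M * g - r = r %ₘ M + M * g - (r %ₘ M + M * (r /ₘ M)) := by rw [← this]
        _ = M * (g - r /ₘ M) := by ring
  · intro g g' _ _ h1
    have : M * (g - g') = 0 := by linear_combination h1
    rcases mul_eq_zero.1 this with h2 | h2
    · exact absurd h2 hM.ne_zero
    · exact sub_eq_zero.1 h2
  · intro f hf
    obtain ⟨h1, t, ht⟩ := hf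
    have h2 := modByMonic_add_div r M
    have hMg : r %ₘ M + M * (r /ₘ M + t) = f := by
      calc r %ₘ M + M * (r /ₘ M + t) = (r %ₘ M + M * (r /ₘ M)) + M * t := by ring
        _ = r + (f - r) := by rw [h2, ← ht]
        _ = f := by ring
    refine ⟨r /ₘ M + t, ?_, hMg⟩
    simp only [Set.mem_ofPred_eq]
    by_cases hg0 : r /ₘ M + t = 0
    · rw [hg0]; simp
    have h3 : (M * (r /ₘ M + t)).degree < n := by
      have e : M * (r /ₘ M + t) = f - r %ₘ M := by rw [← hMg]; ring
      rw [e]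
      refine lt_of_le_of_lt (degree_sub_le _ _) (max_lt h1 ?_)
      refine lt_of_lt_of_le (degree_modByMonic_lt r hM) ?_
      rw [degree_eq_natDegree hM.ne_zero]
      exact_mod_cast h
    rw [degree_mul, degree_eq_natDegree hM.ne_zero, degree_eq_natDegree hg0] at h3
    rw [degree_eq_natDegree hg0]
    have h4 : M.natDegree + (r /ₘ M + t).natDegree < n := by exact_mod_cast h3
    have h5 : (r /ₘ M + t).natDegree < n - M.natDegree := by omega
    exact_mod_cast h5

theorem cls_eq (n : ℕ) (c : k) (M r : k[X]) :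
    cls n c M r = (fun f => f + C c * X ^ n) '' lt0 n M (r - C c * X ^ n) := by
  ext f
  simp only [cls, lt0, Set.mem_image, Set.mem_ofPred_eq]
  constructor
  · rintro ⟨h1, h2, h3⟩
    refine ⟨f - C c * X ^ n, ⟨?_, ?_⟩, by ring⟩
    · rw [degree_lt_iff_coeff_zero]
      intro m hm
      rw [coeff_sub, coeff_C_mul_X_pow]
      rcases eq_or_lt_of_le hm with rfl | h
      · simp [h2]
      · rw [coeff_eq_zero_of_natDegree_lt (lt_of_le_of_lt h1 h), if_neg (by omega), sub_zero]
    · convert h3 using 1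
      ring
  · rintro ⟨g, ⟨h1, h2⟩, rfl⟩
    refine ⟨?_, ?_, ?_⟩
    · refine natDegree_add_le_of_degree_le ?_ (natDegree_C_mul_X_pow_le c n)
      rw [natDegree_le_iff_degree_le]
      exact h1.le
    · rw [coeff_add, coeff_C_mul_X_pow, if_pos rfl, (degree_lt_iff_coeff_zero _ _).1 h1 n le_rfl,
        zero_add]
    · convert h2 using 1
      ring

theorem cls_finite (n : ℕ) (c : k) (M r : k[X]) : (cls n c M r).Finite := by
  rw [cls_eq]
  exact (lt0_finite n M _).image _

theorem cls_ncard' (n : ℕ) (c : k) (M r : k[X]) :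
    (cls n c M r).ncard = (lt0 n M (r - C c * X ^ n)).ncard := by
  rw [cls_eq, Set.ncard_image_of_injective]
  intro f g h
  simpa using h

theorem cls_ncard (n : ℕ) (c : k) (M r : k[X]) (hM : M.Monic) (h : M.natDegree ≤ n) :
    (cls n c M r).ncard = Nat.card k ^ (n - M.natDegree) := by
  rw [cls_ncard', lt0_ncard n M _ hM h]

theorem q_pos : (0 : ℝ) < (Nat.card k : ℝ) := by
  exact_mod_cast Nat.card_pos (α := k)

/-- the real form of the count -/
theorem cls_real (n : ℕ) (c : k) (M r : k[X]) (hM : M.Monic) (h : M.natDegree ≤ n) :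
    ((cls n c M r).ncard : ℝ) = (Nat.card k : ℝ) ^ n / (Nat.card k : ℝ) ^ M.natDegree := by
  rw [cls_ncard n c M r hM h]
  push_cast
  rw [pow_sub₀ _ (q_pos (k := k)).ne' h, div_eq_mul_inv]

/-- an upper bound without restriction on the degree of the modulus -/
theorem cls_le (n : ℕ) (c : k) (M r : k[X]) (hM : M.Monic) :
    ((cls n c M r).ncard : ℝ) ≤ (Nat.card k : ℝ) ^ n / (Nat.card k : ℝ) ^ M.natDegree + 1 := by
  have hq := q_pos (k := k)
  by_cases h : M.natDegree ≤ n
  · rw [cls_real n c M r hM h]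
    linarith
  · have h1 : (cls n c M r).ncard ≤ 1 := by
      rw [Set.ncard_le_one (cls_finite n c M r)]
      intro f hf g hg
      have hd : M ∣ f - g := by
        have := dvd_sub hf.2.2 hg.2.2
        convert this using 1
        ring
      by_contra hne
      have hne' : f - g ≠ 0 := sub_ne_zero.2 hne
      have h2 := natDegree_le_of_dvd hd hne'
      have h3 : (f - g).natDegree ≤ n := (natDegree_sub_le _ _).trans (max_le hf.1 hg.1)
      omega
    have h2 : ((cls n c M r).ncard : ℝ) ≤ 1 := by exact_mod_cast h1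
    have : (0:ℝ) ≤ (Nat.card k : ℝ) ^ n / (Nat.card k : ℝ) ^ M.natDegree := by positivity
    linarith

/-- nonzero polynomials of degree at most `n` divisible by `Q`: at most `q^(n+1) / |Q|` -/
theorem mult_le (n : ℕ) (c : k) (Q : k[X]) (hQ : Q.Monic) :
    (({f : k[X] | f.natDegree ≤ n ∧ f.coeff n = c ∧ Q ∣ f ∧ f ≠ 0}).ncard : ℝ) ≤
      (Nat.card k : ℝ) ^ (n + 1) / (Nat.card k : ℝ) ^ Q.natDegree := by
  have hq := q_pos (k := k)
  have hsub : {f : k[X] | f.natDegree ≤ n ∧ f.coeff n = c ∧ Q ∣ f ∧ f ≠ 0} ⊆ cls n c Q 0 := by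
    rintro f ⟨h1, h2, h3, _⟩
    exact ⟨h1, h2, by simpa using h3⟩
  by_cases h : Q.natDegree ≤ n
  · have h1 : (({f : k[X] | f.natDegree ≤ n ∧ f.coeff n = c ∧ Q ∣ f ∧ f ≠ 0}).ncard : ℝ) ≤
        ((cls n c Q 0).ncard : ℝ) := by
      exact_mod_cast Set.ncard_le_ncard hsub (cls_finite n c Q 0)
    refine h1.trans ?_
    rw [cls_real n c Q 0 hQ h]
    have h1q : (1:ℝ) ≤ (Nat.card k : ℝ) := by exact_mod_cast Nat.card_pos (α := k)
    gcongr
    omega
  · have h1 : {f : k[X] | f.natDegree ≤ n ∧ f.coeff n = c ∧ Q ∣ f ∧ f ≠ 0} = ∅ := by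
      rw [Set.eq_empty_iff_forall_notMem]
      rintro f ⟨h1, h2, h3, h4⟩
      have := natDegree_le_of_dvd h3 h4
      omega
    rw [h1]
    simp
    positivity

/-! ### two classes -/

theorem dsc_two {Q a b b' : k[X]} (h6 : (6 : k) ≠ 0) (hQ : Irreducible Q) (ha : ¬ Q ∣ a)
    (h : Q ^ 2 ∣ dsc a b) (h' : Q ^ 2 ∣ dsc a b') : Q ^ 2 ∣ b - b' ∨ Q ^ 2 ∣ b + b' := by
  have hp : Prime Q := hQ.prime
  have h2 : (2 : k) ≠ 0 := fun h => h6 (by linear_combination 3 * h)
  have h3 : (3 : k) ≠ 0 := fun h => h6 (by linear_combination 2 * h)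
  have hu : ∀ c : k, c ≠ 0 → IsUnit (C c : k[X]) := fun c hc => isUnit_C.2 (isUnit_iff_ne_zero.2 hc)
  have hun : ∀ (c : k) (x : k[X]), c ≠ 0 → Q ∣ C c * x → Q ∣ x := fun c x hc hx =>
    (hu c hc).dvd_mul_left.1 hx
  have hun2 : ∀ (c : k) (x : k[X]), c ≠ 0 → Q ^ 2 ∣ C c * x → Q ^ 2 ∣ x := fun c x hc hx =>
    (hu c hc).dvd_mul_left.1 hx
  have hd : Q ^ 2 ∣ (b - b') * (b + b') := by
    refine hun2 27 _ (by
      have : (27 : k) = 3 ^ 3 := by norm_num
      rw [this]; exact pow_ne_zero 3 h3) ?_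
    have := dvd_sub h h'
    unfold dsc at this
    convert this using 1
    simp only [map_ofNat]
    ring
  have hb : ¬ Q ∣ b := by
    intro hb
    apply ha
    have h1 : Q ∣ dsc a b := (dvd_pow_self Q two_ne_zero).trans h
    unfold dsc at h1
    have h4 : Q ∣ 4 * a ^ 3 := by
      have h5 : Q ∣ 27 * b ^ 2 := Dvd.dvd.mul_left (dvd_pow hb two_ne_zero) _
      have := dvd_sub h1 h5
      convert this using 1
      ring
    have h6' : Q ∣ a ^ 3 := hun 4 _ (by
      have : (4 : k) = 2 ^ 2 := by norm_num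
      rw [this]; exact pow_ne_zero 2 h2) (by simpa only [map_ofNat] using h4)
    exact hp.dvd_of_dvd_pow h6'
  have hnb : ¬ (Q ∣ b - b' ∧ Q ∣ b + b') := by
    rintro ⟨h1, h4⟩
    apply hb
    refine hun 2 _ h2 ?_
    have := dvd_add h1 h4
    convert this using 1
    simp only [map_ofNat]
    ring
  by_cases h1 : Q ∣ b - b'
  · left
    have h4 : ¬ Q ∣ b + b' := fun h => hnb ⟨h1, h⟩
    have hc : IsCoprime (Q ^ 2) (b + b') := (((hQ.coprime_iff_not_dvd).2 h4)).pow_left
    exact hc.dvd_of_dvd_mul_right hd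
  · right
    have hc : IsCoprime (Q ^ 2) (b - b') := (((hQ.coprime_iff_not_dvd).2 h1)).pow_left
    exact hc.dvd_of_dvd_mul_left hd

end Pool.Agent.N916.PP
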