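import Pool.Agent.N916.PP.FamA

/-!
# Project PP, part FAM: the sieve bounds
-/

set_option autoImplicit false
set_option linter.all false

open Polynomial
open scoped Classical

namespace Pool.Agent.N916.PP

open Pool.Agent.N874.PP

variable {k : Type} [Field k] [Finite k]

theorem fib {α β : Type} (A : Set α) (hA : A.Finite) (P : Set (α × β)) (hP : P.Finite) (C : ℝ)
    (h1 : ∀ p ∈ P, p.1 ∈ A) (h2 : ∀ a ∈ A, ({b | (a, b) ∈ P}.ncard : ℝ) ≤ C) :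
    (P.ncard : ℝ) ≤ A.ncard * C := by
  have e : P.ncard = ∑ a ∈ hA.toFinset, ({b | (a, b) ∈ P}.ncard) := by
    rw [Set.ncard_eq_toFinset_card P hP, Finset.card_eq_sum_card_fiberwise (f := Prod.fst)
      (t := hA.toFinset)]
    · refine Finset.sum_congr rfl fun a _ => ?_
      rw [← Set.ncard_coe_finset]
      symm
      refine Set.ncard_congr (fun b _ => (a, b)) ?_ ?_ ?_
      · intro b hb
        simpa using hb
      · intro b b' _ _ h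
        exact (Prod.ext_iff.1 h).2
      · rintro ⟨x, y⟩ hx
        simp only [Finset.coe_filter, Set.Finite.mem_toFinset, Set.mem_ofPred_eq] at hx
        obtain ⟨hx1, rfl⟩ := hx
        exact ⟨y, hx1, rfl⟩
    · intro p hp
      simp only [Set.Finite.coe_toFinset] at hp ⊢
      exact h1 p hp
  rw [e]
  push_cast
  refine (Finset.sum_le_sum fun a ha => h2 a ?_).trans ?_
  · simpa using ha
  · rw [Finset.sum_const, nsmul_eq_mul, Set.ncard_eq_toFinset_card A hA]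

theorem crt2 {M Q : k[X]} (h : IsCoprime M Q) (r t : k[X]) : ∃ u : k[X], M ∣ u - r ∧ Q ∣ u - t := by
  obtain ⟨x, y, hxy⟩ := h
  refine ⟨r * (y * Q) + t * (x * M), ⟨(t - r) * x, ?_⟩, ⟨(r - t) * y, ?_⟩⟩
  · linear_combination r * hxy
  · linear_combination t * hxy

variable (N : ℕ) (a₀ b₀ : k) (M a1 : k[X])

/-- the family without the condition on the discriminant -/
def F0 : Set (k[X] × k[X]) := cls (4 * N) a₀ M a1 ×ˢ cls (6 * N) b₀ M 0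

def B1 (Q : k[X]) : Set (k[X] × k[X]) := {p | p ∈ F0 N a₀ b₀ M a1 ∧ Q ∣ p.1 ∧ Q ∣ p.2}
def B2 (Q : k[X]) : Set (k[X] × k[X]) :=
  {p | p ∈ F0 N a₀ b₀ M a1 ∧ ¬ Q ∣ p.1 ∧ Q ^ 2 ∣ dsc p.1 p.2}

theorem F0_finite : (F0 N a₀ b₀ M a1).Finite := (cls_finite _ _ _ _).prod (cls_finite _ _ _ _)

theorem B1_finite (Q : k[X]) : (B1 N a₀ b₀ M a1 Q).Finite :=
  (F0_finite N a₀ b₀ M a1).subset fun p hp => hp.1

theorem B2_finite (Q : k[X]) : (B2 N a₀ b₀ M a1 Q).Finite :=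
  (F0_finite N a₀ b₀ M a1).subset fun p hp => hp.1

variable {M}

theorem F0_real (hM : M.Monic) (h : M.natDegree ≤ 4 * N) :
    ((F0 N a₀ b₀ M a1).ncard : ℝ) =
      (Nat.card k : ℝ) ^ (10 * N) / (Nat.card k : ℝ) ^ (2 * M.natDegree) := by
  unfold F0
  rw [Set.ncard_prod]
  push_cast
  rw [cls_real _ _ _ _ hM h, cls_real _ _ _ _ hM (by omega), div_mul_div_comm, ← pow_add,
    ← pow_add]
  congr 2 <;> ring

/-- few `b` for a given `a`, with the conditions modulo `M` -/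
theorem W_small (hM : M.Monic) {Q : k[X]} (h6 : (6 : k) ≠ 0) (hQm : Q.Monic) (hQ : Irreducible Q)
    (hc : IsCoprime M Q) (hd : 2 * Q.natDegree + M.natDegree ≤ 6 * N) (a : k[X]) (ha : ¬ Q ∣ a) :
    (({b | b ∈ cls (6 * N) b₀ M 0 ∧ Q ^ 2 ∣ dsc a b}).ncard : ℝ) ≤
      2 * ((Nat.card k : ℝ) ^ (6 * N) / (Nat.card k : ℝ) ^ (M.natDegree + 2 * Q.natDegree)) := by
  have hq := q_pos (k := k)
  by_cases hne : ∃ b₁, b₁ ∈ cls (6 * N) b₀ M 0 ∧ Q ^ 2 ∣ dsc a b₁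
  · obtain ⟨b₁, hb₁, hd₁⟩ := hne
    have hcop : IsCoprime M (Q ^ 2) := hc.pow_right
    obtain ⟨r, hr1, hr2⟩ := crt2 hcop 0 b₁
    obtain ⟨t, ht1, ht2⟩ := crt2 hcop 0 (-b₁)
    have hmon : (M * Q ^ 2).Monic := hM.mul (hQm.pow 2)
    have hdeg : (M * Q ^ 2).natDegree = M.natDegree + 2 * Q.natDegree := by
      rw [hM.natDegree_mul (hQm.pow 2), hQm.natDegree_pow]
    have hsub : {b | b ∈ cls (6 * N) b₀ M 0 ∧ Q ^ 2 ∣ dsc a b} ⊆
        cls (6 * N) b₀ (M * Q ^ 2) r ∪ cls (6 * N) b₀ (M * Q ^ 2) t := by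
      rintro b ⟨hb, hdb⟩
      have hMb : ∀ u : k[X], M ∣ u - 0 → M ∣ b - u := by
        intro u hu
        have := dvd_sub hb.2.2 hu
        convert this using 1
        ring
      rcases dsc_two h6 hQ ha hdb hd₁ with h | h
      · left
        refine ⟨hb.1, hb.2.1, hcop.mul_dvd (hMb r hr1) ?_⟩
        have := dvd_sub h hr2
        convert this using 1
        ring
      · right
        refine ⟨hb.1, hb.2.1, hcop.mul_dvd (hMb t ht1) ?_⟩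
        have := dvd_sub h ht2
        convert this using 1
        ring
    have h1 : ({b | b ∈ cls (6 * N) b₀ M 0 ∧ Q ^ 2 ∣ dsc a b}).ncard ≤
        (cls (6 * N) b₀ (M * Q ^ 2) r).ncard + (cls (6 * N) b₀ (M * Q ^ 2) t).ncard :=
      (Set.ncard_le_ncard hsub ((cls_finite _ _ _ _).union (cls_finite _ _ _ _))).trans
        (Set.ncard_union_le _ _)
    have h2 : (({b | b ∈ cls (6 * N) b₀ M 0 ∧ Q ^ 2 ∣ dsc a b}).ncard : ℝ) ≤
        ((cls (6 * N) b₀ (M * Q ^ 2) r).ncard : ℝ) + ((cls (6 * N) b₀ (M * Q ^ 2) t).ncard : ℝ) := by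
      exact_mod_cast h1
    rw [cls_real _ _ _ _ hmon (by rw [hdeg]; omega), cls_real _ _ _ _ hmon (by rw [hdeg]; omega),
      hdeg] at h2
    linarith
  · have h1 : {b | b ∈ cls (6 * N) b₀ M 0 ∧ Q ^ 2 ∣ dsc a b} = ∅ := by
      rw [Set.eq_empty_iff_forall_notMem]
      intro b hb
      exact hne ⟨b, hb⟩
    rw [h1]
    simp
    positivity

/-- few `b` for a given `a`, without the conditions modulo `M` -/
theorem W_large {Q : k[X]} (h6 : (6 : k) ≠ 0) (hQm : Q.Monic) (hQ : Irreducible Q)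
    (a : k[X]) (ha : ¬ Q ∣ a) :
    (({b | b ∈ cls (6 * N) b₀ M 0 ∧ Q ^ 2 ∣ dsc a b}).ncard : ℝ) ≤
      2 * ((Nat.card k : ℝ) ^ (6 * N) / (Nat.card k : ℝ) ^ (2 * Q.natDegree) + 1) := by
  have hq := q_pos (k := k)
  by_cases hne : ∃ b₁, b₁ ∈ cls (6 * N) b₀ M 0 ∧ Q ^ 2 ∣ dsc a b₁
  · obtain ⟨b₁, hb₁, hd₁⟩ := hne
    have hmon : (Q ^ 2).Monic := hQm.pow 2
    have hdeg : (Q ^ 2).natDegree = 2 * Q.natDegree := by
      rw [hQm.natDegree_pow]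
    have hsub : {b | b ∈ cls (6 * N) b₀ M 0 ∧ Q ^ 2 ∣ dsc a b} ⊆
        cls (6 * N) b₀ (Q ^ 2) b₁ ∪ cls (6 * N) b₀ (Q ^ 2) (-b₁) := by
      rintro b ⟨hb, hdb⟩
      rcases dsc_two h6 hQ ha hdb hd₁ with h | h
      · left
        exact ⟨hb.1, hb.2.1, h⟩
      · right
        exact ⟨hb.1, hb.2.1, by rwa [sub_neg_eq_add]⟩
    have h1 : ({b | b ∈ cls (6 * N) b₀ M 0 ∧ Q ^ 2 ∣ dsc a b}).ncard ≤
        (cls (6 * N) b₀ (Q ^ 2) b₁).ncard + (cls (6 * N) b₀ (Q ^ 2) (-b₁)).ncard :=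
      (Set.ncard_le_ncard hsub ((cls_finite _ _ _ _).union (cls_finite _ _ _ _))).trans
        (Set.ncard_union_le _ _)
    have h2 : (({b | b ∈ cls (6 * N) b₀ M 0 ∧ Q ^ 2 ∣ dsc a b}).ncard : ℝ) ≤
        ((cls (6 * N) b₀ (Q ^ 2) b₁).ncard : ℝ) + ((cls (6 * N) b₀ (Q ^ 2) (-b₁)).ncard : ℝ) := by
      exact_mod_cast h1
    have h3 := cls_le (6 * N) b₀ (Q ^ 2) b₁ hmon
    have h4 := cls_le (6 * N) b₀ (Q ^ 2) (-b₁) hmon
    rw [hdeg] at h3 h4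
    linarith
  · have h1 : {b | b ∈ cls (6 * N) b₀ M 0 ∧ Q ^ 2 ∣ dsc a b} = ∅ := by
      rw [Set.eq_empty_iff_forall_notMem]
      intro b hb
      exact hne ⟨b, hb⟩
    rw [h1]
    simp
    positivity

theorem B2_fib (Q : k[X]) (C : ℝ)
    (h : ∀ a : k[X], ¬ Q ∣ a → (({b | b ∈ cls (6 * N) b₀ M 0 ∧ Q ^ 2 ∣ dsc a b}).ncard : ℝ) ≤ C)
    (hC : 0 ≤ C) :
    ((B2 N a₀ b₀ M a1 Q).ncard : ℝ) ≤ (cls (4 * N) a₀ M a1).ncard * C := by
  refine fib _ (cls_finite _ _ _ _) _ (B2_finite N a₀ b₀ M a1 Q) C (fun p hp => hp.1.1) ?_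
  intro a _
  by_cases ha : Q ∣ a
  · have : {b | (a, b) ∈ B2 N a₀ b₀ M a1 Q} = ∅ := by
      rw [Set.eq_empty_iff_forall_notMem]
      intro b hb
      exact hb.2.1 ha
    rw [this]
    simpa using hC
  · refine le_trans ?_ (h a ha)
    have hs : {b | (a, b) ∈ B2 N a₀ b₀ M a1 Q} ⊆ {b | b ∈ cls (6 * N) b₀ M 0 ∧ Q ^ 2 ∣ dsc a b} :=
      fun b hb => ⟨hb.1.2, hb.2.2⟩
    exact_mod_cast Set.ncard_le_ncard hs ((cls_finite _ _ _ _).subset fun b hb => hb.1)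

theorem B2_small (hM : M.Monic) {Q : k[X]} (h6 : (6 : k) ≠ 0) (hQm : Q.Monic) (hQ : Irreducible Q)
    (hc : IsCoprime M Q) (hd : 2 * Q.natDegree + M.natDegree ≤ 6 * N) (hM4 : M.natDegree ≤ 4 * N) :
    ((B2 N a₀ b₀ M a1 Q).ncard : ℝ) ≤
      2 * ((Nat.card k : ℝ) ^ (10 * N) / (Nat.card k : ℝ) ^ (2 * M.natDegree) /
        (Nat.card k : ℝ) ^ (2 * Q.natDegree)) := by
  have hq := q_pos (k := k)
  refine (B2_fib N a₀ b₀ a1 Q _ (W_small N b₀ hM h6 hQm hQ hc hd) (by positivity)).trans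
    (le_of_eq ?_)
  rw [cls_real _ _ _ _ hM hM4, show 10 * N = 4 * N + 6 * N by ring,
    show 2 * M.natDegree = M.natDegree + M.natDegree by ring, pow_add, pow_add, pow_add]
  field_simp

theorem B1_small (hM : M.Monic) {Q : k[X]} (hQm : Q.Monic) (hc : IsCoprime M Q)
    (hd : Q.natDegree + M.natDegree ≤ 4 * N) :
    ((B1 N a₀ b₀ M a1 Q).ncard : ℝ) ≤
      (Nat.card k : ℝ) ^ (10 * N) / (Nat.card k : ℝ) ^ (2 * M.natDegree) /
        (Nat.card k : ℝ) ^ (2 * Q.natDegree) := by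
  have hq := q_pos (k := k)
  obtain ⟨r, hr1, hr2⟩ := crt2 hc a1 0
  have hmon : (M * Q).Monic := hM.mul hQm
  have hdeg : (M * Q).natDegree = M.natDegree + Q.natDegree := by
    rw [hM.natDegree_mul hQm]
  have hsub : B1 N a₀ b₀ M a1 Q ⊆ cls (4 * N) a₀ (M * Q) r ×ˢ cls (6 * N) b₀ (M * Q) 0 := by
    rintro ⟨a, b⟩ ⟨⟨h1, h2⟩, h3, h4⟩
    refine ⟨⟨h1.1, h1.2.1, hc.mul_dvd ?_ ?_⟩, ⟨h2.1, h2.2.1, hc.mul_dvd h2.2.2 (by simpa using h4)⟩⟩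
    · have := dvd_sub h1.2.2 hr1
      convert this using 1
      ring
    · have := dvd_sub h3 hr2
      convert this using 1
      ring
  have h1 : ((B1 N a₀ b₀ M a1 Q).ncard : ℝ) ≤
      ((cls (4 * N) a₀ (M * Q) r ×ˢ cls (6 * N) b₀ (M * Q) 0).ncard : ℝ) := by
    exact_mod_cast Set.ncard_le_ncard hsub ((cls_finite _ _ _ _).prod (cls_finite _ _ _ _))
  refine h1.trans (le_of_eq ?_)
  rw [Set.ncard_prod]
  push_cast
  rw [cls_real _ _ _ _ hmon (by rw [hdeg]; omega), cls_real _ _ _ _ hmon (by rw [hdeg]; omega),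
    hdeg, show 10 * N = 4 * N + 6 * N by ring,
    show 2 * M.natDegree = M.natDegree + M.natDegree by ring,
    show 2 * Q.natDegree = Q.natDegree + Q.natDegree by ring, pow_add, pow_add, pow_add, pow_add]
  field_simp

theorem cls_all (n : ℕ) (c : k) (r : k[X]) : ((cls n c M r).ncard : ℝ) ≤ (Nat.card k : ℝ) ^ n := by
  have hs : cls n c M r ⊆ cls n c 1 0 := fun f hf => ⟨hf.1, hf.2.1, one_dvd _⟩
  have h1 : ((cls n c M r).ncard : ℝ) ≤ ((cls n c 1 0).ncard : ℝ) := by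
    exact_mod_cast Set.ncard_le_ncard hs (cls_finite _ _ _ _)
  rw [cls_real n c 1 0 monic_one (by simp)] at h1
  simpa using h1

theorem B2_large {Q : k[X]} (h6 : (6 : k) ≠ 0) (hQm : Q.Monic) (hQ : Irreducible Q) :
    ((B2 N a₀ b₀ M a1 Q).ncard : ℝ) ≤ 2 * ((Nat.card k : ℝ) ^ (10 * N) /
      (Nat.card k : ℝ) ^ (2 * Q.natDegree) + (Nat.card k : ℝ) ^ (4 * N)) := by
  have hq := q_pos (k := k)
  refine (B2_fib N a₀ b₀ a1 Q _ (W_large N b₀ h6 hQm hQ) (by positivity)).trans ?_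
  refine (mul_le_mul_of_nonneg_right (cls_all (4 * N) a₀ a1) (by positivity)).trans (le_of_eq ?_)
  rw [show 10 * N = 4 * N + 6 * N by ring, pow_add]
  ring

theorem B1_large {Q : k[X]} (hQm : Q.Monic) :
    (({p | p ∈ B1 N a₀ b₀ M a1 Q ∧ p.1 ≠ 0}).ncard : ℝ) ≤ 2 * ((Nat.card k : ℝ) ^ (10 * N + 1) /
      (Nat.card k : ℝ) ^ (2 * Q.natDegree)) := by
  have hq := q_pos (k := k)
  by_cases hd : Q.natDegree ≤ 4 * N
  · have hsub : {p | p ∈ B1 N a₀ b₀ M a1 Q ∧ p.1 ≠ 0} ⊆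
        {f : k[X] | f.natDegree ≤ 4 * N ∧ f.coeff (4 * N) = a₀ ∧ Q ∣ f ∧ f ≠ 0} ×ˢ
          cls (6 * N) b₀ Q 0 := by
      rintro ⟨a, b⟩ ⟨⟨⟨h1, h2⟩, h3, h4⟩, h5⟩
      exact ⟨⟨h1.1, h1.2.1, h3, h5⟩, ⟨h2.1, h2.2.1, by simpa using h4⟩⟩
    have hfin : ({f : k[X] | f.natDegree ≤ 4 * N ∧ f.coeff (4 * N) = a₀ ∧ Q ∣ f ∧ f ≠ 0}).Finite :=
      (cls_finite (4 * N) a₀ 1 0).subset fun f hf => ⟨hf.1, hf.2.1, one_dvd _⟩
    have h1 : (({p | p ∈ B1 N a₀ b₀ M a1 Q ∧ p.1 ≠ 0}).ncard : ℝ) ≤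
        (({f : k[X] | f.natDegree ≤ 4 * N ∧ f.coeff (4 * N) = a₀ ∧ Q ∣ f ∧ f ≠ 0} ×ˢ
          cls (6 * N) b₀ Q 0).ncard : ℝ) := by
      exact_mod_cast Set.ncard_le_ncard hsub (hfin.prod (cls_finite _ _ _ _))
    refine h1.trans ?_
    rw [Set.ncard_prod]
    push_cast
    have h2 := mult_le (4 * N) a₀ Q hQm
    have h3 := cls_real (6 * N) b₀ Q 0 hQm (by omega)
    rw [h3]
    refine (mul_le_mul_of_nonneg_right h2 (by positivity)).trans ?_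
    have e : (Nat.card k : ℝ) ^ (4 * N + 1) / (Nat.card k : ℝ) ^ Q.natDegree *
        ((Nat.card k : ℝ) ^ (6 * N) / (Nat.card k : ℝ) ^ Q.natDegree) =
        (Nat.card k : ℝ) ^ (10 * N + 1) / (Nat.card k : ℝ) ^ (2 * Q.natDegree) := by
      rw [div_mul_div_comm, ← pow_add, ← pow_add]
      congr 2 <;> ring
    rw [e]
    have : (0:ℝ) ≤ (Nat.card k : ℝ) ^ (10 * N + 1) / (Nat.card k : ℝ) ^ (2 * Q.natDegree) := by
      positivity
    linarith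
  · have h1 : {p | p ∈ B1 N a₀ b₀ M a1 Q ∧ p.1 ≠ 0} = ∅ := by
      rw [Set.eq_empty_iff_forall_notMem]
      rintro ⟨a, b⟩ ⟨⟨⟨h1, h2⟩, h3, h4⟩, h5⟩
      have := natDegree_le_of_dvd h3 h5
      have := h1.1
      simp only at *
      omega
    rw [h1]
    simp
    positivity

theorem zero_le' : (({p | p ∈ F0 N a₀ b₀ M a1 ∧ p.1 = 0}).ncard : ℝ) ≤
    (Nat.card k : ℝ) ^ (6 * N) := by
  have hsub : {p | p ∈ F0 N a₀ b₀ M a1 ∧ p.1 = 0} ⊆ {0} ×ˢ cls (6 * N) b₀ M 0 := by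
    rintro ⟨a, b⟩ ⟨h1, h2⟩
    exact ⟨h2, h1.2⟩
  have h1 : (({p | p ∈ F0 N a₀ b₀ M a1 ∧ p.1 = 0}).ncard : ℝ) ≤
      ((({0} : Set k[X]) ×ˢ cls (6 * N) b₀ M 0).ncard : ℝ) := by
    exact_mod_cast Set.ncard_le_ncard hsub ((Set.finite_singleton _).prod (cls_finite _ _ _ _))
  rw [Set.ncard_prod, Set.ncard_singleton, one_mul] at h1
  exact h1.trans (cls_all _ _ _)

end Pool.Agent.N916.PP
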