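import Pool.Agent.N916.PP.FamC

/-!
# Project PP, part FAM: the theorem `S_FAM`
-/

set_option autoImplicit false
set_option linter.all false

open Polynomial
open scoped Classical

namespace Pool.Agent.N916.PP

open Pool.Agent.N874.PP

section main

variable {k : Type} [Field k] [Finite k]

variable (N : ℕ) (a₀ b₀ : k) {M : k[X]} (a1 : k[X])

theorem small_part (h6 : (6 : k) ≠ 0) (hM : M.Monic) (S : Finset k[X])
    (hcop : ∀ Q : k[X], Q.Monic → Irreducible Q → Q ∉ S → IsCoprime M Q)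
    (P : ℕ → Finset k[X])
    (hP1 : ∀ d Q, Q ∈ P d ↔ Q.Monic ∧ Irreducible Q ∧ Q.natDegree = d)
    (hP2 : ∀ d : ℕ, 1 ≤ d → (d : ℝ) * (P d).card ≤ (Nat.card k : ℝ) ^ d)
    (D : ℕ) (hD : 2 * D + M.natDegree ≤ 6 * N) (hD' : D + M.natDegree ≤ 4 * N) :
    (((⋃ d ∈ Finset.Ico 1 (D + 1), ⋃ Q ∈ (P d).filter (fun Q => Q ∉ S),
      (B1 N a₀ b₀ M a1 Q ∪ B2 N a₀ b₀ M a1 Q))).ncard : ℝ) ≤
      3 / 4 * ((Nat.card k : ℝ) ^ (10 * N) / (Nat.card k : ℝ) ^ (2 * M.natDegree)) := by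
  have hq5 : (5 : ℝ) ≤ (Nat.card k : ℝ) := by exact_mod_cast five_le h6
  set q : ℝ := (Nat.card k : ℝ) with hqdef
  have hq0 : 0 < q := by linarith
  set Y : ℝ := q ^ (10 * N) / q ^ (2 * M.natDegree) with hY
  have hY0 : 0 ≤ Y := by positivity
  have h1 : ∀ d ∈ Finset.Ico 1 (D + 1), (((⋃ Q ∈ (P d).filter (fun Q => Q ∉ S),
      (B1 N a₀ b₀ M a1 Q ∪ B2 N a₀ b₀ M a1 Q))).ncard : ℝ) ≤ 3 * Y * (1 / q ^ d) := by
    intro d hd
    rw [Finset.mem_Ico] at hd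
    refine (bU _ _ (fun _ => 3 * (Y / q ^ (2 * d))) ?_).trans ?_
    · intro Q hQ
      rw [Finset.mem_filter, hP1] at hQ
      obtain ⟨⟨hQm, hQi, hQd⟩, hQS⟩ := hQ
      have hc := hcop Q hQm hQi hQS
      have e1 := B1_small N a₀ b₀ a1 hM hQm hc (by omega)
      have e2 := B2_small N a₀ b₀ a1 hM h6 hQm hQi hc (by omega) (by omega)
      rw [hQd] at e1 e2
      have e3 : ((B1 N a₀ b₀ M a1 Q ∪ B2 N a₀ b₀ M a1 Q).ncard : ℝ) ≤
          (B1 N a₀ b₀ M a1 Q).ncard + (B2 N a₀ b₀ M a1 Q).ncard := by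
        exact_mod_cast Set.ncard_union_le _ _
      linarith
    · rw [Finset.sum_const, nsmul_eq_mul]
      have e1 : (((P d).filter (fun Q => Q ∉ S)).card : ℝ) ≤ (P d).card := by
        exact_mod_cast Finset.card_filter_le _ _
      have e2 := hP2 d hd.1
      have e3 : (1 : ℝ) ≤ d := by exact_mod_cast hd.1
      have e4 : ((P d).card : ℝ) ≤ q ^ d := by
        have : (0 : ℝ) ≤ (P d).card := Nat.cast_nonneg _
        nlinarith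
      have e5 : (((P d).filter (fun Q => Q ∉ S)).card : ℝ) ≤ q ^ d := e1.trans e4
      refine (mul_le_mul_of_nonneg_right e5 (by positivity)).trans (le_of_eq ?_)
      rw [two_mul, pow_add]
      field_simp
  refine (bU _ _ _ h1).trans ?_
  rw [← Finset.mul_sum]
  have h2 := sum1 q hq5 0 D
  simp only [zero_add, pow_zero, div_one] at h2
  have h10 : 0 < q - 1 := by linarith
  have h11 : 1 / (q - 1) ≤ 1 / 4 := one_div_le_one_div_of_le (by norm_num) (by linarith)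
  have h3 : (0 : ℝ) ≤ (1 / (q - 1)) / q ^ D := by positivity
  have h4 : ∑ d ∈ Finset.Ico 1 (D + 1), 1 / q ^ d ≤ 1 / 4 := by linarith
  nlinarith

theorem tail_part (h6 : (6 : k) ≠ 0) (hM : M.Monic)
    (P : ℕ → Finset k[X])
    (hP1 : ∀ d Q, Q ∈ P d ↔ Q.Monic ∧ Irreducible Q ∧ Q.natDegree = d)
    (hP2 : ∀ d : ℕ, 1 ≤ d → (d : ℝ) * (P d).card ≤ (Nat.card k : ℝ) ^ d)
    (D : ℕ) (hD : D ≤ 6 * N) :
    (((⋃ d ∈ Finset.Ico (D + 1) (6 * N + 1), ⋃ Q ∈ P d,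
      ({p | p ∈ B1 N a₀ b₀ M a1 Q ∧ p.1 ≠ 0} ∪ B2 N a₀ b₀ M a1 Q))).ncard : ℝ) ≤
      (Nat.card k : ℝ) ^ (10 * N) * (3 / (Nat.card k : ℝ) ^ D + 3 / (D + 1)) := by
  have hq5 : (5 : ℝ) ≤ (Nat.card k : ℝ) := by exact_mod_cast five_le h6
  set q : ℝ := (Nat.card k : ℝ) with hqdef
  have hq0 : 0 < q := by linarith
  have hD0 : (0 : ℝ) < (D : ℝ) + 1 := by positivity
  have h1 : ∀ d ∈ Finset.Ico (D + 1) (6 * N + 1), (((⋃ Q ∈ P d,
      ({p | p ∈ B1 N a₀ b₀ M a1 Q ∧ p.1 ≠ 0} ∪ B2 N a₀ b₀ M a1 Q))).ncard : ℝ) ≤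
      2 * (q + 1) * q ^ (10 * N) * (1 / q ^ d) + 2 * q ^ (4 * N) / (D + 1) * q ^ d := by
    intro d hd
    rw [Finset.mem_Ico] at hd
    refine (bU _ _ (fun _ => 2 * (q ^ (10 * N + 1) / q ^ (2 * d)) +
      2 * (q ^ (10 * N) / q ^ (2 * d) + q ^ (4 * N))) ?_).trans ?_
    · intro Q hQ
      rw [hP1] at hQ
      obtain ⟨hQm, hQi, hQd⟩ := hQ
      have e1 := B1_large N a₀ b₀ (M := M) a1 hQm
      have e2 := B2_large N a₀ b₀ (M := M) a1 h6 hQm hQi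
      rw [hQd] at e1 e2
      have e3 : (({p | p ∈ B1 N a₀ b₀ M a1 Q ∧ p.1 ≠ 0} ∪ B2 N a₀ b₀ M a1 Q).ncard : ℝ) ≤
          ({p | p ∈ B1 N a₀ b₀ M a1 Q ∧ p.1 ≠ 0}).ncard + (B2 N a₀ b₀ M a1 Q).ncard := by
        exact_mod_cast Set.ncard_union_le _ _
      linarith
    · rw [Finset.sum_const, nsmul_eq_mul]
      have e2 := hP2 d (by omega)
      have e3 : (D : ℝ) + 1 ≤ d := by exact_mod_cast hd.1
      have e30 : (0 : ℝ) ≤ (P d).card := Nat.cast_nonneg _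
      have e6 : ((P d).card : ℝ) * (D + 1) ≤ q ^ d := by nlinarith
      have e5 : ((P d).card : ℝ) ≤ q ^ d := by nlinarith
      have e7 : ((P d).card : ℝ) ≤ q ^ d / (D + 1) := by
        rw [le_div_iff₀ hD0]
        exact e6
      have e8 : (2 * (q ^ (10 * N + 1) / q ^ (2 * d)) + 2 * (q ^ (10 * N) / q ^ (2 * d) +
          q ^ (4 * N))) = 2 * (q + 1) * q ^ (10 * N) / q ^ (2 * d) + 2 * q ^ (4 * N) := by
        rw [pow_succ]
        ring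
      rw [e8, mul_add]
      refine add_le_add ?_ ?_
      · refine (mul_le_mul_of_nonneg_right e5 (by positivity)).trans (le_of_eq ?_)
        rw [two_mul d, pow_add]
        field_simp
      · refine (mul_le_mul_of_nonneg_right e7 (by positivity)).trans (le_of_eq ?_)
        ring
  refine (bU _ _ _ h1).trans ?_
  rw [Finset.sum_add_distrib, ← Finset.mul_sum, ← Finset.mul_sum]
  rw [mul_add (q ^ (10 * N)) _ _]
  refine add_le_add ?_ ?_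
  · have h2 := sum1 q hq5 D (6 * N - D)
    rw [show D + (6 * N - D) = 6 * N by omega] at h2
    have h10 : 0 < q - 1 := by linarith
    have h3 : (0 : ℝ) ≤ (1 / (q - 1)) / q ^ (6 * N) := by positivity
    have h4 : ∑ d ∈ Finset.Ico (D + 1) (6 * N + 1), 1 / q ^ d ≤ 1 / (q - 1) / q ^ D := by linarith
    refine (mul_le_mul_of_nonneg_left h4 (by positivity)).trans ?_
    have h5 : 2 * (q + 1) * (1 / (q - 1)) ≤ 3 := by
      rw [mul_one_div, div_le_iff₀ h10]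
      linarith
    have h6' : 2 * (q + 1) * q ^ (10 * N) * (1 / (q - 1) / q ^ D) =
      (2 * (q + 1) * (1 / (q - 1))) * (q ^ (10 * N) / q ^ D) := by ring
    have h7 : q ^ (10 * N) * (3 / q ^ D) = 3 * (q ^ (10 * N) / q ^ D) := by ring
    rw [h6', h7]
    exact mul_le_mul_of_nonneg_right h5 (by positivity)
  · have h2 : ∑ d ∈ Finset.Ico (D + 1) (6 * N + 1), q ^ d ≤ ∑ d ∈ Finset.range (6 * N + 1), q ^ d := by
      apply Finset.sum_le_sum_of_subset_of_nonneg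
      · intro x hx
        rw [Finset.mem_Ico] at hx
        rw [Finset.mem_range]
        exact hx.2
      · intros
        positivity
    have h3 := h2.trans (sum2 q hq5 (6 * N))
    refine (mul_le_mul_of_nonneg_left h3 (by positivity)).trans ?_
    rw [show 10 * N = 4 * N + 6 * N by ring, pow_add]
    have h4 : 2 * q ^ (4 * N) / (D + 1) * (5 / 4 * q ^ (6 * N)) =
      (q ^ (4 * N) * q ^ (6 * N)) * ((5 / 2) / (D + 1)) := by ring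
    rw [h4]
    gcongr
    norm_num

theorem cover (h6 : (6 : k) ≠ 0) (S : Finset k[X]) (s : k[X] → k[X]) (hS : GoodS S s)
    (hMS : ∀ Q ∈ S, Q ∣ M) (ha1 : ∀ Q ∈ S, Q ∣ a1 - s Q)
    (P : ℕ → Finset k[X])
    (hP1 : ∀ d Q, Q ∈ P d ↔ Q.Monic ∧ Irreducible Q ∧ Q.natDegree = d) (hN : 1 ≤ N)
    (D : ℕ) :
    F0 N a₀ b₀ M a1 ⊆ {p : k[X] × k[X] | Fam N a₀ b₀ S s p.1 p.2} ∪
      ({p | p ∈ F0 N a₀ b₀ M a1 ∧ p.1 = 0} ∪
      ((⋃ d ∈ Finset.Ico 1 (D + 1), ⋃ Q ∈ (P d).filter (fun Q => Q ∉ S),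
        (B1 N a₀ b₀ M a1 Q ∪ B2 N a₀ b₀ M a1 Q)) ∪
      (⋃ d ∈ Finset.Ico (D + 1) (6 * N + 1), ⋃ Q ∈ P d,
        ({p | p ∈ B1 N a₀ b₀ M a1 Q ∧ p.1 ≠ 0} ∪ B2 N a₀ b₀ M a1 Q)))) := by
  intro p hp
  have ra : ∀ Q ∈ S, Q ∣ p.1 - s Q := by
    intro Q hQ
    have := dvd_add ((hMS Q hQ).trans hp.1.2.2) (ha1 Q hQ)
    convert this using 1
    ring
  have rb : ∀ Q ∈ S, Q ∣ p.2 := by
    intro Q hQ
    have := (hMS Q hQ).trans hp.2.2.2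
    simpa using this
  by_cases hsq : Squarefree (dsc p.1 p.2)
  · left
    exact ⟨hp.1.1, hp.2.1, hp.1.2.1, hp.2.2.1, ra, rb, hsq⟩
  right
  by_cases h0 : p.1 = 0
  · left
    exact ⟨hp, h0⟩
  right
  obtain ⟨Q, hQm, hQi, hQd, h1, h2⟩ := bad_prime N hN p.1 p.2 hp.1.1 hp.2.1 hsq
  have hQS : Q ∉ S := fun hQS => not_mem_S h6 hQi (hS Q hQS).2.2 (ra Q hQS) (rb Q hQS)
    ((dvd_pow_self Q two_ne_zero).trans hQd)
  have hB : p ∈ B1 N a₀ b₀ M a1 Q ∨ p ∈ B2 N a₀ b₀ M a1 Q := by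
    by_cases hd : Q ∣ p.1
    · left
      exact ⟨hp, hd, dvd_b h6 hQi hd hQd⟩
    · right
      exact ⟨hp, hd, hQd⟩
  by_cases hD : Q.natDegree ≤ D
  · left
    simp only [Set.mem_iUnion]
    exact ⟨Q.natDegree, Finset.mem_Ico.2 ⟨h1, by omega⟩, Q,
      Finset.mem_filter.2 ⟨(hP1 _ _).2 ⟨hQm, hQi, rfl⟩, hQS⟩, hB⟩
  · right
    simp only [Set.mem_iUnion]
    refine ⟨Q.natDegree, Finset.mem_Ico.2 ⟨by omega, by omega⟩, Q,
      (hP1 _ _).2 ⟨hQm, hQi, rfl⟩, ?_⟩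
    rcases hB with hB | hB
    · left
      exact ⟨hB, h0⟩
    · right
      exact hB

end main

theorem fam : S_FAM := by
  intro k _ _ h6 a₀ b₀ _
  refine ⟨1 / 8, by norm_num, fun S s hS => ?_⟩
  have hq5n : 5 ≤ Nat.card k := five_le h6
  have hq5 : (5 : ℝ) ≤ (Nat.card k : ℝ) := by exact_mod_cast hq5n
  have hMm : (∏ Q ∈ S, Q : k[X]).Monic :=
    monic_prod_of_monic S (fun Q => Q) (fun Q hQ => (hS Q hQ).1)
  obtain ⟨hcop, a1, ha1⟩ := exists_a1 S (fun Q hQ => ⟨(hS Q hQ).1, (hS Q hQ).2.1⟩) s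
  obtain ⟨P, hP1, hP2⟩ := exists_Pr h6
  have hprod : ((∏ Q ∈ S, nm Q ^ 2 : ℕ) : ℝ) =
      (Nat.card k : ℝ) ^ (2 * (∏ Q ∈ S, Q : k[X]).natDegree) := by
    rw [natDegree_prod_of_monic S (fun Q => Q) (fun Q hQ => (hS Q hQ).1)]
    push_cast [nm]
    rw [Finset.mul_sum, ← Finset.prod_pow_eq_pow_sum]
    refine Finset.prod_congr rfl fun Q _ => ?_
    rw [← pow_mul, mul_comm]
  have hMS : ∀ Q ∈ S, Q ∣ ∏ R ∈ S, R := fun Q hQ => Finset.dvd_prod_of_mem (fun x => x) hQ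
  rw [hprod]
  generalize (∏ Q ∈ S, Q : k[X]) = M at *
  generalize hμ : M.natDegree = μ at *
  refine ⟨56 * Nat.card k ^ (2 * μ) + μ, fun N hN => ?_⟩
  have hqμ : 1 ≤ Nat.card k ^ (2 * μ) := Nat.one_le_pow _ _ (by omega)
  have hN1 : 1 ≤ N := by omega
  obtain ⟨D, hD⟩ : ∃ D, D = 3 * N - μ := ⟨_, rfl⟩
  have hcov := cover N a₀ b₀ a1 h6 S s hS hMS ha1 P hP1 hN1 D
  have e1 := small_part N a₀ b₀ a1 h6 hMm S hcop P hP1 hP2 D (by omega) (by omega)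
  have e2 := tail_part N a₀ b₀ a1 h6 hMm P hP1 hP2 D (by omega)
  have e3 := zero_le' N a₀ b₀ (M := M) a1
  have e4 := F0_real N a₀ b₀ a1 hMm (by omega)
  rw [hμ] at e1 e4
  have hbig : ((cls (4 * N) a₀ 1 0) ×ˢ (cls (6 * N) b₀ 1 0)).Finite :=
    (cls_finite _ _ _ _).prod (cls_finite _ _ _ _)
  have f0 : F0 N a₀ b₀ M a1 ⊆ (cls (4 * N) a₀ 1 0) ×ˢ (cls (6 * N) b₀ 1 0) := fun p hp =>
    ⟨⟨hp.1.1, hp.1.2.1, one_dvd _⟩, ⟨hp.2.1, hp.2.2.1, one_dvd _⟩⟩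
  have f1 : {p : k[X] × k[X] | Fam N a₀ b₀ S s p.1 p.2} ⊆
      (cls (4 * N) a₀ 1 0) ×ˢ (cls (6 * N) b₀ 1 0) := fun p hp =>
    ⟨⟨hp.da, hp.ca, one_dvd _⟩, ⟨hp.db, hp.cb, one_dvd _⟩⟩
  have f2 : {p | p ∈ F0 N a₀ b₀ M a1 ∧ p.1 = 0} ⊆ F0 N a₀ b₀ M a1 := fun p hp => hp.1
  have f3 : (⋃ d ∈ Finset.Ico 1 (D + 1), ⋃ Q ∈ (P d).filter (fun Q => Q ∉ S),
        (B1 N a₀ b₀ M a1 Q ∪ B2 N a₀ b₀ M a1 Q)) ⊆ F0 N a₀ b₀ M a1 := by
    intro p hp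
    simp only [Set.mem_iUnion] at hp
    obtain ⟨d, _, Q, _, h⟩ := hp
    rcases h with h | h
    · exact h.1
    · exact h.1
  have f4 : (⋃ d ∈ Finset.Ico (D + 1) (6 * N + 1), ⋃ Q ∈ P d,
        ({p | p ∈ B1 N a₀ b₀ M a1 Q ∧ p.1 ≠ 0} ∪ B2 N a₀ b₀ M a1 Q)) ⊆ F0 N a₀ b₀ M a1 := by
    intro p hp
    simp only [Set.mem_iUnion] at hp
    obtain ⟨d, _, Q, _, h⟩ := hp
    rcases h with h | h
    · exact h.1.1
    · exact h.1
  have hle := Set.ncard_le_ncard hcov (hbig.subset (Set.union_subset f1 (Set.union_subset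
    (f2.trans f0) (Set.union_subset (f3.trans f0) (f4.trans f0)))))
  have hle2 := hle.trans ((Set.ncard_union_le _ _).trans (Nat.add_le_add_left
    ((Set.ncard_union_le _ _).trans (Nat.add_le_add_left (Set.ncard_union_le _ _) _)) _))
  have hle3 : ((F0 N a₀ b₀ M a1).ncard : ℝ) ≤
      (({p : k[X] × k[X] | Fam N a₀ b₀ S s p.1 p.2}).ncard : ℝ) +
      ((({p | p ∈ F0 N a₀ b₀ M a1 ∧ p.1 = 0}).ncard : ℝ) +
      (((⋃ d ∈ Finset.Ico 1 (D + 1), ⋃ Q ∈ (P d).filter (fun Q => Q ∉ S),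
        (B1 N a₀ b₀ M a1 Q ∪ B2 N a₀ b₀ M a1 Q)).ncard : ℝ) +
      ((⋃ d ∈ Finset.Ico (D + 1) (6 * N + 1), ⋃ Q ∈ P d,
        ({p | p ∈ B1 N a₀ b₀ M a1 Q ∧ p.1 ≠ 0} ∪ B2 N a₀ b₀ M a1 Q)).ncard : ℝ))) := by
    exact_mod_cast hle2
  have hDr : (56 : ℝ) * (Nat.card k : ℝ) ^ (2 * μ) ≤ (D : ℝ) + 1 := by
    have : 56 * Nat.card k ^ (2 * μ) ≤ D + 1 := by omega
    exact_mod_cast this
  have hA : (D : ℝ) + 1 ≤ (Nat.card k : ℝ) ^ D := by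
    have : D + 1 ≤ Nat.card k ^ D := Nat.lt_pow_self (by omega)
    exact_mod_cast this
  have hA' : (D : ℝ) + 1 ≤ (Nat.card k : ℝ) ^ (4 * N) := by
    have h1 : 4 * N < Nat.card k ^ (4 * N) := Nat.lt_pow_self (by omega)
    have : D + 1 ≤ Nat.card k ^ (4 * N) := by omega
    exact_mod_cast this
  generalize ((F0 N a₀ b₀ M a1).ncard : ℝ) = x0 at *
  generalize (({p : k[X] × k[X] | Fam N a₀ b₀ S s p.1 p.2}).ncard : ℝ) = x1 at *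
  generalize (({p | p ∈ F0 N a₀ b₀ M a1 ∧ p.1 = 0}).ncard : ℝ) = x2 at *
  generalize ((⋃ d ∈ Finset.Ico 1 (D + 1), ⋃ Q ∈ (P d).filter (fun Q => Q ∉ S),
        (B1 N a₀ b₀ M a1 Q ∪ B2 N a₀ b₀ M a1 Q)).ncard : ℝ) = x3 at *
  generalize ((⋃ d ∈ Finset.Ico (D + 1) (6 * N + 1), ⋃ Q ∈ P d,
        ({p | p ∈ B1 N a₀ b₀ M a1 Q ∧ p.1 ≠ 0} ∪ B2 N a₀ b₀ M a1 Q)).ncard : ℝ) = x4 at *
  generalize (Nat.card k : ℝ) = q at *
  have hq0 : 0 < q := by linarith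
  have hD0 : (0 : ℝ) < (D : ℝ) + 1 := by positivity
  have g1 : 3 / q ^ D ≤ 3 / ((D : ℝ) + 1) := by gcongr
  have g2 : q ^ (6 * N) ≤ q ^ (10 * N) * (1 / ((D : ℝ) + 1)) := by
    have : q ^ (10 * N) = q ^ (6 * N) * q ^ (4 * N) := by
      rw [← pow_add]
      congr 1
      ring
    rw [this, mul_assoc]
    have h1 : (1 : ℝ) ≤ q ^ (4 * N) * (1 / ((D : ℝ) + 1)) := by
      rw [mul_one_div, le_div_iff₀ hD0, one_mul]
      exact hA'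
    have h2 : 0 < q ^ (6 * N) := by positivity
    nlinarith
  have hx : 0 < q ^ (10 * N) := by positivity
  have hμ0 : 0 < q ^ (2 * μ) := by positivity
  have g3 : q ^ (10 * N) * (3 / q ^ D + 3 / ((D : ℝ) + 1)) ≤
      q ^ (10 * N) * (6 / ((D : ℝ) + 1)) := by
    apply mul_le_mul_of_nonneg_left _ hx.le
    have : 6 / ((D : ℝ) + 1) = 3 / ((D : ℝ) + 1) + 3 / ((D : ℝ) + 1) := by ring
    rw [this]
    linarith
  have g4 : x0 ≤ x1 + (q ^ (10 * N) * (7 / ((D : ℝ) + 1)) + 3 / 4 * x0) := by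
    have : q ^ (10 * N) * (7 / ((D : ℝ) + 1)) = q ^ (10 * N) * (1 / ((D : ℝ) + 1)) +
      q ^ (10 * N) * (6 / ((D : ℝ) + 1)) := by ring
    rw [this]
    rw [← e4] at e1
    linarith
  have g5 : q ^ (2 * μ) * (7 / ((D : ℝ) + 1)) ≤ 1 / 8 := by
    rw [mul_div_assoc', div_le_iff₀ hD0]
    linarith
  have g6 : q ^ (2 * μ) * x0 = q ^ (10 * N) := by
    rw [e4]
    field_simp
  have g7 : q ^ (2 * μ) * (q ^ (10 * N) * (7 / ((D : ℝ) + 1))) ≤ q ^ (10 * N) * (1 / 8) := by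
    have : q ^ (2 * μ) * (q ^ (10 * N) * (7 / ((D : ℝ) + 1))) =
      q ^ (10 * N) * (q ^ (2 * μ) * (7 / ((D : ℝ) + 1))) := by ring
    rw [this]
    exact mul_le_mul_of_nonneg_left g5 hx.le
  have g8 := mul_le_mul_of_nonneg_left g4 hμ0.le
  nlinarith

end Pool.Agent.N916.PP
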